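import Mathlib

/-!
# The lattice `R(G)` of the regular closed families of connected sets of vertices of a graph
-/

set_option autoImplicit false

namespace Pool.Agent.P8H31.RG

variable {V : Type} {G : SimpleGraph V}

/-- `so(G)`: the nonempty sets `X` of vertices of `G` which induce a connected subgraph. -/
def So (G : SimpleGraph V) : Type := {X : Set V // (G.induce X).Connected}

/-- The family `a ⊆ so(G)` is closed: whenever `X`, `Y` in `a` are disjoint and `X ∪ Y` belongs to
`so(G)`, the union `X ∪ Y` belongs to `a`. -/
def IsClosed (a : Set (So G)) : Prop :=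
  ∀ X ∈ a, ∀ Y ∈ a, Disjoint X.1 Y.1 → ∀ Z : So G, Z.1 = X.1 ∪ Y.1 → Z ∈ a

/-- The closure operator: `cl a` is the least closed family containing `a`. -/
def cl (a : Set (So G)) : Set (So G) := {X | ∀ b : Set (So G), IsClosed b → a ⊆ b → X ∈ b}

/-- The interior operator: the complement of the closure of the complement. -/
def int (a : Set (So G)) : Set (So G) := (cl aᶜ)ᶜ

/-- The family `a` is regular closed if it is the closure of its interior. -/
def IsRegularClosed (a : Set (So G)) : Prop := a = cl (int a)

/-- `R(G)`: the regular closed families. -/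
def R (G : SimpleGraph V) : Type := {a : Set (So G) // IsRegularClosed a}

theorem cl_closed (a : Set (So G)) : IsClosed (cl a) := by
  intro X hX Y hY hXY Z hZ b hb hab
  exact hb X (hX b hb hab) Y (hY b hb hab) hXY Z hZ

theorem subset_cl (a : Set (So G)) : a ⊆ cl a := fun _ hX _ _ hab => hab hX

theorem cl_min {a b : Set (So G)} (h : a ⊆ b) (hb : IsClosed b) : cl a ⊆ b :=
  fun _ hX => hX b hb h

theorem cl_mono {a b : Set (So G)} (h : a ⊆ b) : cl a ⊆ cl b :=
  cl_min (h.trans (subset_cl b)) (cl_closed b)

theorem cl_eq {a : Set (So G)} (h : IsClosed a) : cl a = a :=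
  (cl_min subset_rfl h).antisymm (subset_cl a)

theorem int_subset (a : Set (So G)) : int a ⊆ a := by
  intro s hs
  by_contra h
  exact hs (subset_cl _ h)

theorem int_mono {a b : Set (So G)} (h : a ⊆ b) : int a ⊆ int b := by
  intro s hs hs'
  exact hs (cl_mono (Set.compl_subset_compl.2 h) hs')

theorem int_int (a : Set (So G)) : int (int a) = int a := by
  unfold int
  rw [compl_compl, cl_eq (cl_closed _)]

theorem regular_of_open {a : Set (So G)} (h : int a = a) : IsRegularClosed (cl a) := by
  unfold IsRegularClosed
  refine Set.Subset.antisymm (cl_mono ?_) ?_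
  · calc a = int a := h.symm
      _ ⊆ int (cl a) := int_mono (subset_cl a)
  · exact cl_min (int_subset _) (cl_closed _)

theorem R.closed (a : R G) : IsClosed a.1 := by
  rw [a.2]
  exact cl_closed _

/-- the join of two regular closed families -/
def R.sup (a b : R G) : R G := ⟨cl (a.1 ∪ b.1), by
  unfold IsRegularClosed
  refine Set.Subset.antisymm ?_ (cl_min (int_subset _) (cl_closed _))
  refine cl_min (Set.union_subset ?_ ?_) (cl_closed _)
  · intro s hs
    rw [a.2] at hs
    exact cl_mono (int_mono (Set.subset_union_left.trans (subset_cl _))) hs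
  · intro s hs
    rw [b.2] at hs
    exact cl_mono (int_mono (Set.subset_union_right.trans (subset_cl _))) hs⟩

/-- the meet of two regular closed families -/
def R.inf (a b : R G) : R G := ⟨cl (int (a.1 ∩ b.1)), regular_of_open (int_int _)⟩

variable (G) in
/-- The lattice `R(G)`, ordered by inclusion. -/
@[instance_reducible]
def R.lattice : Lattice (R G) where
  le a b := a.1 ⊆ b.1
  le_refl a := subset_rfl
  le_trans a b c h h' := Set.Subset.trans h h'
  le_antisymm a b h h' := Subtype.ext (Set.Subset.antisymm h h')
  sup := R.sup
  le_sup_left a b := Set.subset_union_left.trans (subset_cl _)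
  le_sup_right a b := Set.subset_union_right.trans (subset_cl _)
  sup_le a b c h h' := cl_min (Set.union_subset h h') c.closed
  inf := R.inf
  inf_le_left a b := by
    refine cl_min ((int_subset _).trans Set.inter_subset_left) a.closed
  inf_le_right a b := by
    refine cl_min ((int_subset _).trans Set.inter_subset_right) b.closed
  le_inf a b c h h' := by
    show a.1 ⊆ cl (int (b.1 ∩ c.1))
    intro s hs
    rw [a.2] at hs
    exact cl_mono (int_mono (Set.subset_inter h h')) hs

end Pool.Agent.P8H31.RG
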