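import Pool.Agent.P8H31.RG.Defs
import Pool.Agent.R645.RegTree

/-!
# Lattices `Reg(e)` inside `R(G)`

If the pairs of a strict ordering `e` correspond to the connected sets of weight zero for an
additive real weight of the sets of vertices of the graph `G`, such that the disjoint unions which
are connected correspond to the compositions of pairs, then `Reg(e)` is a sublattice of `R(G)`.
-/

set_option autoImplicit false

namespace Pool.Agent.P8H31.RG

open Pool.Agent.R645.RegTree (IsTransitive interior interior_eq Reg Reg.lattice LTerm)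

variable {V E : Type} {G : SimpleGraph V} {e : Set (E × E)}

/-- an additive weight of sets of vertices whose connected zero sets are the sets `X a b`,
`(a, b) ∈ e` -/
structure Sys (G : SimpleGraph V) (e : Set (E × E)) (X : E → E → Set V) (φ : Set V → ℝ) :
    Prop where
  trans : IsTransitive e
  conn : ∀ a b, (a, b) ∈ e → (G.induce (X a b)).Connected
  inj : ∀ a b c d, (a, b) ∈ e → (c, d) ∈ e → X a b = X c d → a = c ∧ b = d
  join : ∀ a b c, (a, b) ∈ e → (b, c) ∈ e → X a b ∪ X b c = X a c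
  disj : ∀ a b c, (a, b) ∈ e → (b, c) ∈ e → Disjoint (X a b) (X b c)
  comp : ∀ a b c d, (a, b) ∈ e → (c, d) ∈ e → Disjoint (X a b) (X c d) →
    (G.induce (X a b ∪ X c d)).Connected → b = c ∨ d = a
  add : ∀ S T, Disjoint S T → φ (S ∪ T) = φ S + φ T
  zero : ∀ a b, (a, b) ∈ e → φ (X a b) = 0
  ker : ∀ S, (G.induce S).Connected → φ S = 0 → ∃ a b, (a, b) ∈ e ∧ S = X a b

variable {X : E → E → Set V} {φ : Set V → ℝ}

theorem Sys.neg (h : Sys G e X φ) : Sys G e X (fun S => - φ S) where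
  trans := h.trans
  conn := h.conn
  inj := h.inj
  join := h.join
  disj := h.disj
  comp := h.comp
  add S T hST := by
    show - φ (S ∪ T) = - φ S + - φ T
    rw [h.add S T hST]
    ring
  zero a b hab := by
    show - φ (X a b) = 0
    rw [h.zero a b hab, neg_zero]
  ker S hS h0 := h.ker S hS (neg_eq_zero.1 h0)

/-- the lift of a set of pairs -/
def lift (G : SimpleGraph V) (X : E → E → Set V) (φ : Set V → ℝ) (A : Set (E × E)) : Set (So G) :=
  {Y | 0 < φ Y.1 ∨ ∃ a b, (a, b) ∈ A ∧ Y.1 = X a b}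

theorem Sys.lift_closed (h : Sys G e X φ) {A : Set (E × E)} (hA : A ⊆ e) (hAt : IsTransitive A) :
    IsClosed (lift G X φ A) := by
  intro Y hY Z hZ hYZ W hW
  have hadd := h.add Y.1 Z.1 hYZ
  rw [← hW] at hadd
  rcases hY with hY | ⟨a, b, hab, hY⟩ <;> rcases hZ with hZ | ⟨c, d, hcd, hZ⟩
  · left
    linarith
  · left
    have := h.zero c d (hA hcd)
    rw [← hZ] at this
    linarith
  · left
    have := h.zero a b (hA hab)
    rw [← hY] at this
    linarith
  · right
    have hc : (G.induce (X a b ∪ X c d)).Connected := by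
      rw [← hY, ← hZ, ← hW]
      exact W.2
    rw [hY, hZ] at hYZ
    rcases h.comp a b c d (hA hab) (hA hcd) hYZ hc with rfl | rfl
    · exact ⟨a, d, hAt _ _ _ hab hcd, by rw [hW, hY, hZ, h.join _ _ _ (hA hab) (hA hcd)]⟩
    · exact ⟨c, b, hAt _ _ _ hcd hab, by
        rw [hW, hY, hZ, Set.union_comm, h.join _ _ _ (hA hcd) (hA hab)]⟩

open Pool.Agent.R645.RegTree in
theorem Sys.cl_lift (h : Sys G e X φ) {A : Set (E × E)} (hA : A ⊆ e) :
    cl (lift G X φ A) = lift G X φ (Pool.Agent.R645.RegTree.cl A) := by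
  have hcle : Pool.Agent.R645.RegTree.cl A ⊆ e := cl_subset hA h.trans
  refine Set.Subset.antisymm (cl_min ?_ (h.lift_closed hcle (cl_transitive A))) ?_
  · rintro Y (hY | ⟨a, b, hab, hY⟩)
    · exact Or.inl hY
    · exact Or.inr ⟨a, b, Pool.Agent.R645.RegTree.subset_cl A hab, hY⟩
  · rintro Y (hY | ⟨a, b, hab, hY⟩)
    · exact subset_cl _ (Or.inl hY)
    · have key : ∀ b, (a, b) ∈ Pool.Agent.R645.RegTree.cl A → ∀ hc : (G.induce (X a b)).Connected,
          (⟨X a b, hc⟩ : So G) ∈ cl (lift G X φ A) := by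
        intro b hab
        change Relation.TransGen (fun x y => (x, y) ∈ A) a b at hab
        induction hab with
        | single h1 =>
          intro hc
          exact subset_cl _ (Or.inr ⟨a, _, h1, rfl⟩)
        | @tail b c h1 h2 ih =>
          intro hc
          have h1' : (a, b) ∈ e := hcle h1
          have h2' : (b, c) ∈ e := hA h2
          exact cl_closed _ ⟨X a b, h.conn a b h1'⟩ (ih _) ⟨X b c, h.conn b c h2'⟩
            (subset_cl _ (Or.inr ⟨b, c, h2, rfl⟩)) (h.disj a b c h1' h2') ⟨X a c, hc⟩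
            (h.join a b c h1' h2').symm
      obtain ⟨Y, hYc⟩ := Y
      obtain rfl : Y = X a b := hY
      exact key b hab hYc

theorem Sys.compl_lift (h : Sys G e X φ) (A : Set (E × E)) (hA : A ⊆ e) :
    (lift G X φ A)ᶜ = lift G X (fun S => - φ S) (e \ A) := by
  ext Y
  constructor
  · intro hY
    rcases lt_trichotomy (φ Y.1) 0 with h1 | h1 | h1
    · exact Or.inl (by simpa using h1)
    · obtain ⟨a, b, hab, hY'⟩ := h.ker Y.1 Y.2 h1
      exact Or.inr ⟨a, b, ⟨hab, fun hA' => hY (Or.inr ⟨a, b, hA', hY'⟩)⟩, hY'⟩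
    · exact absurd (Or.inl h1) hY
  · rintro (h1 | ⟨a, b, hab, hY'⟩) (h2 | ⟨c, d, hcd, hY⟩)
    · have h1' : 0 < - φ Y.1 := h1
      linarith
    · have := h.zero c d (hA hcd)
      rw [← hY] at this
      have h1' : 0 < - φ Y.1 := h1
      linarith
    · have := h.zero a b hab.1
      rw [← hY'] at this
      linarith
    · obtain ⟨rfl, rfl⟩ := h.inj a b c d hab.1 (hA hcd) (hY'.symm.trans hY)
      exact hab.2 hcd

theorem Sys.int_lift (h : Sys G e X φ) {A : Set (E × E)} (hA : A ⊆ e) :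
    int (lift G X φ A) = lift G X φ (interior e A) := by
  have hcle : Pool.Agent.R645.RegTree.cl (e \ A) ⊆ e :=
    Pool.Agent.R645.RegTree.cl_subset Set.sdiff_subset h.trans
  unfold int
  rw [h.compl_lift A hA, h.neg.cl_lift Set.sdiff_subset, h.neg.compl_lift _ hcle,
    interior_eq h.trans]
  simp only [neg_neg]

theorem Sys.union_lift (A B : Set (E × E)) :
    lift G X φ A ∪ lift G X φ B = lift G X φ (A ∪ B) := by
  ext Y
  constructor
  · rintro ((h1 | ⟨a, b, hab, hY⟩) | (h1 | ⟨a, b, hab, hY⟩))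
    · exact Or.inl h1
    · exact Or.inr ⟨a, b, Or.inl hab, hY⟩
    · exact Or.inl h1
    · exact Or.inr ⟨a, b, Or.inr hab, hY⟩
  · rintro (h1 | ⟨a, b, hab | hab, hY⟩)
    · exact Or.inl (Or.inl h1)
    · exact Or.inl (Or.inr ⟨a, b, hab, hY⟩)
    · exact Or.inr (Or.inr ⟨a, b, hab, hY⟩)

theorem Sys.inter_lift (h : Sys G e X φ) {A B : Set (E × E)} (hA : A ⊆ e) (hB : B ⊆ e) :
    lift G X φ A ∩ lift G X φ B = lift G X φ (A ∩ B) := by
  ext Y
  constructor
  · rintro ⟨h1 | ⟨a, b, hab, hY⟩, h2 | ⟨c, d, hcd, hY'⟩⟩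
    · exact Or.inl h1
    · exact Or.inl h1
    · exact Or.inl h2
    · obtain ⟨rfl, rfl⟩ := h.inj a b c d (hA hab) (hB hcd) (hY.symm.trans hY')
      exact Or.inr ⟨a, b, ⟨hab, hcd⟩, hY⟩
  · rintro (h1 | ⟨a, b, hab, hY⟩)
    · exact ⟨Or.inl h1, Or.inl h1⟩
    · exact ⟨Or.inr ⟨a, b, hab.1, hY⟩, Or.inr ⟨a, b, hab.2, hY⟩⟩

/-- the embedding of `Reg(e)` in `R(G)` -/
def Sys.emb (h : Sys G e X φ) (a : Reg e) : R G := ⟨lift G X φ a.1, by
  unfold IsRegularClosed
  rw [h.int_lift a.2.1, h.cl_lift ((Pool.Agent.R645.RegTree.interior_subset _ _).trans a.2.1)]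
  conv_lhs => rw [a.2.2]⟩

theorem Sys.emb_injective (h : Sys G e X φ) : Function.Injective h.emb := by
  intro a b hab
  have hab' : lift G X φ a.1 = lift G X φ b.1 := congrArg Subtype.val hab
  have key : ∀ a b : Reg e, lift G X φ a.1 = lift G X φ b.1 → a.1 ⊆ b.1 := by
    rintro a b hab ⟨x, y⟩ hxy
    have hxe := a.2.1 hxy
    have h1 : (⟨X x y, h.conn x y hxe⟩ : So G) ∈ lift G X φ b.1 := by
      rw [← hab]
      exact Or.inr ⟨x, y, hxy, rfl⟩
    rcases h1 with h1 | ⟨c, d, hcd, hY⟩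
    · have h1' : 0 < φ (X x y) := h1
      rw [h.zero x y hxe] at h1'
      exact absurd h1' (lt_irrefl _)
    · obtain ⟨rfl, rfl⟩ := h.inj x y c d hxe (b.2.1 hcd) hY
      exact hcd
  exact Subtype.ext ((key a b hab').antisymm (key b a hab'.symm))

theorem Sys.eval_emb (h : Sys G e X φ) (F : ℕ → Reg e) (r : LTerm) :
    @LTerm.eval (R G) (R.lattice G) (fun i => h.emb (F i)) r =
      h.emb (@LTerm.eval (Reg e) (Reg.lattice e h.trans) F r) := by
  letI := R.lattice G
  letI := Reg.lattice e h.trans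
  induction r with
  | var i => rfl
  | sup s t hs ht =>
    show @LTerm.eval (R G) (R.lattice G) (fun i => h.emb (F i)) s ⊔
      @LTerm.eval (R G) (R.lattice G) (fun i => h.emb (F i)) t = _
    rw [hs, ht]
    apply Subtype.ext
    set A := @LTerm.eval (Reg e) (Reg.lattice e h.trans) F s
    set B := @LTerm.eval (Reg e) (Reg.lattice e h.trans) F t
    show cl (lift G X φ A.1 ∪ lift G X φ B.1) =
      lift G X φ (Pool.Agent.R645.RegTree.cl (A.1 ∪ B.1))
    rw [Sys.union_lift, h.cl_lift (Set.union_subset A.2.1 B.2.1)]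
  | inf s t hs ht =>
    show @LTerm.eval (R G) (R.lattice G) (fun i => h.emb (F i)) s ⊓
      @LTerm.eval (R G) (R.lattice G) (fun i => h.emb (F i)) t = _
    rw [hs, ht]
    apply Subtype.ext
    set A := @LTerm.eval (Reg e) (Reg.lattice e h.trans) F s
    set B := @LTerm.eval (Reg e) (Reg.lattice e h.trans) F t
    show cl (int (lift G X φ A.1 ∩ lift G X φ B.1)) =
      lift G X φ (Pool.Agent.R645.RegTree.cl (interior e (A.1 ∩ B.1)))
    have hAB : A.1 ∩ B.1 ⊆ e := Set.inter_subset_left.trans A.2.1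
    rw [h.inter_lift A.2.1 B.2.1, h.int_lift hAB,
      h.cl_lift ((Pool.Agent.R645.RegTree.interior_subset _ _).trans hAB)]

end Pool.Agent.P8H31.RG
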