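import Pool.Agent.P8H31.RG.Embed

/-!
# The graph of the up-sets of a finite bounded poset
-/

set_option autoImplicit false

namespace Pool.Agent.P8H31.RG

open Pool.Agent.R645.RegTree (IsTransitive IsStrictOrdering)

variable {E : Type} (e : Set (E × E)) (b₀ t₀ : E)

/-- the up-sets which contain the greatest element `t₀` and do not contain the least element
`b₀` -/
def UpV : Type := {U : Set E // (∀ x y, x ∈ U → (x, y) ∈ e → y ∈ U) ∧ t₀ ∈ U ∧ b₀ ∉ U}

/-- two up-sets are adjacent if they differ by one element -/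
def UpG : SimpleGraph (UpV e b₀ t₀) where
  Adj U U' := U ≠ U' ∧ ∃ m, U.1 = insert m U'.1 ∨ U'.1 = insert m U.1
  symm := ⟨fun U U' h => ⟨h.1.symm, by
    obtain ⟨m, hm⟩ := h.2
    exact ⟨m, hm.symm⟩⟩⟩
  loopless := ⟨fun U h => h.1 rfl⟩

/-- the set of the up-sets which contain `b` and do not contain `a` -/
def UpX (a b : E) : Set (UpV e b₀ t₀) := {U | b ∈ U.1 ∧ a ∉ U.1}

/-- the poset is bounded -/
structure Bdd (e : Set (E × E)) (b₀ t₀ : E) : Prop where
  irr : ∀ x, (x, x) ∉ e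
  tr : IsTransitive e
  bot : ∀ x, x ≠ b₀ → (b₀, x) ∈ e
  top : ∀ x, x ≠ t₀ → (x, t₀) ∈ e

variable {e b₀ t₀}

theorem Bdd.ne (h : Bdd e b₀ t₀) {x y : E} (hxy : (x, y) ∈ e) : x ≠ y := by
  rintro rfl
  exact h.irr _ hxy

theorem Bdd.asymm (h : Bdd e b₀ t₀) {x y : E} (hxy : (x, y) ∈ e) : (y, x) ∉ e :=
  fun hyx => h.irr _ (h.tr _ _ _ hxy hyx)

theorem Bdd.not_bot (h : Bdd e b₀ t₀) {x : E} : (x, b₀) ∉ e := by
  intro hx
  by_cases hxb : x = b₀
  · subst hxb
    exact h.irr _ hx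
  · exact h.asymm hx (h.bot x hxb)

theorem Bdd.not_top (h : Bdd e b₀ t₀) {x : E} : (t₀, x) ∉ e := by
  intro hx
  by_cases hxb : x = t₀
  · subst hxb
    exact h.irr _ hx
  · exact h.asymm hx (h.top x hxb)

theorem Bdd.exists_min (h : Bdd e b₀ t₀) [Finite E] (S : Set E) (hS : S.Nonempty) :
    ∃ m ∈ S, ∀ x ∈ S, (x, m) ∉ e := by
  have hw : WellFounded (fun x y : E => (x, y) ∈ e) := by
    have : IsTrans E (fun x y : E => (x, y) ∈ e) := ⟨fun x y z h1 h2 => h.tr x y z h1 h2⟩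
    have : Std.Irrefl (fun x y : E => (x, y) ∈ e) := ⟨h.irr⟩
    exact Finite.wellFounded_of_trans_of_irrefl _
  exact ⟨hw.min S hS, hw.min_mem S hS, fun x hx hlt => hw.not_lt_min S hx hlt⟩

theorem Bdd.exists_max (h : Bdd e b₀ t₀) [Finite E] (S : Set E) (hS : S.Nonempty) :
    ∃ m ∈ S, ∀ x ∈ S, (m, x) ∉ e := by
  have hw : WellFounded (fun x y : E => (y, x) ∈ e) := by
    have : IsTrans E (fun x y : E => (y, x) ∈ e) := ⟨fun x y z h1 h2 => h.tr z y x h2 h1⟩
    have : Std.Irrefl (fun x y : E => (y, x) ∈ e) := ⟨h.irr⟩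
    exact Finite.wellFounded_of_trans_of_irrefl _
  exact ⟨hw.min S hS, hw.min_mem S hS, fun x hx hlt => hw.not_lt_min S hx hlt⟩

/-- the principal up-set -/
def Bdd.up (h : Bdd e b₀ t₀) (b : E) (hb : b ≠ b₀) : UpV e b₀ t₀ :=
  ⟨{y | y = b ∨ (b, y) ∈ e}, by
    refine ⟨?_, ?_, ?_⟩
    · rintro x y (rfl | hx) hxy
      · exact Or.inr hxy
      · exact Or.inr (h.tr _ _ _ hx hxy)
    · by_cases hbt : t₀ = b
      · exact Or.inl hbt
      · exact Or.inr (h.top b (fun hb' => hbt hb'.symm))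
    · rintro (hb' | hb')
      · exact hb hb'.symm
      · exact h.not_bot hb'⟩

theorem Bdd.up_mem (h : Bdd e b₀ t₀) {a b : E} (hab : (a, b) ∈ e) (hb : b ≠ b₀) :
    h.up b hb ∈ UpX e b₀ t₀ a b := by
  refine ⟨Or.inl rfl, ?_⟩
  rintro (rfl | h1)
  · exact h.irr _ hab
  · exact h.asymm hab h1

theorem Bdd.ne_bot (h : Bdd e b₀ t₀) {a b : E} (hab : (a, b) ∈ e) : b ≠ b₀ := by
  rintro rfl
  exact h.not_bot hab

/-- a connected set which is not contained in `P` and meets `P` contains an edge leaving `P` -/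
theorem exists_bdry {V : Type} {G : SimpleGraph V} {S : Set V} (hS : (G.induce S).Connected)
    (P : Set V) {x y : V} (hx : x ∈ S) (hxP : x ∈ P) (hy : y ∈ S) (hyP : y ∉ P) :
    ∃ u v, u ∈ S ∧ v ∈ S ∧ G.Adj u v ∧ u ∈ P ∧ v ∉ P := by
  obtain ⟨p⟩ := hS.preconnected ⟨x, hx⟩ ⟨y, hy⟩
  obtain ⟨d, -, h1, h2⟩ := p.exists_boundary_dart {z | z.1 ∈ P} hxP hyP
  exact ⟨d.fst.1, d.snd.1, d.fst.2, d.snd.2, d.adj, h1, h2⟩

theorem Bdd.conn (h : Bdd e b₀ t₀) [Finite E] {a b : E} (hab : (a, b) ∈ e) :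
    ((UpG e b₀ t₀).induce (UpX e b₀ t₀ a b)).Connected := by
  have hb := h.ne_bot hab
  have hmem := h.up_mem hab hb
  have key : ∀ n : ℕ, ∀ U : UpV e b₀ t₀, ∀ hU : U ∈ UpX e b₀ t₀ a b, U.1.ncard = n →
      ((UpG e b₀ t₀).induce (UpX e b₀ t₀ a b)).Reachable ⟨U, hU⟩ ⟨h.up b hb, hmem⟩ := by
    intro n
    induction n using Nat.strong_induction_on with
    | _ n ih =>
      intro U hU hn
      by_cases hUb : U = h.up b hb
      · subst hUb
        exact SimpleGraph.Reachable.refl _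
      · have hsub : (h.up b hb).1 ⊆ U.1 := by
          rintro y (rfl | hy)
          · exact hU.1
          · exact U.2.1 _ _ hU.1 hy
        have hne : (U.1 \ (h.up b hb).1).Nonempty := by
          rw [Set.nonempty_iff_ne_empty]
          intro h0
          exact hUb (Subtype.ext ((Set.sdiff_eq_empty.1 h0).antisymm hsub))
        obtain ⟨m, hm, hmin⟩ := h.exists_min _ hne
        have hmb : m ≠ b := fun hh => hm.2 (Or.inl hh)
        have hup : ∀ x y, x ∈ U.1 \ {m} → (x, y) ∈ e → y ∈ U.1 \ {m} := by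
          rintro x y ⟨hx, hxm⟩ hxy
          refine ⟨U.2.1 x y hx hxy, ?_⟩
          rintro rfl
          by_cases hxb : x ∈ (h.up b hb).1
          · exact hm.2 ((h.up b hb).2.1 x _ hxb hxy)
          · exact hmin x ⟨hx, hxb⟩ hxy
        let U' : UpV e b₀ t₀ := ⟨U.1 \ {m}, hup, ⟨U.2.2.1, by
          rintro rfl
          exact hm.2 (h.up b hb).2.2.1⟩, fun hh => U.2.2.2 hh.1⟩
        have hU' : U' ∈ UpX e b₀ t₀ a b := ⟨⟨hU.1, fun hh => hmb hh.symm⟩, fun hh => hU.2 hh.1⟩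
        have hcard : U'.1.ncard < n := by
          rw [← hn]
          exact Set.ncard_sdiff_singleton_lt_of_mem hm.1 (Set.toFinite _)
        have hadj : ((UpG e b₀ t₀).induce (UpX e b₀ t₀ a b)).Adj ⟨U, hU⟩ ⟨U', hU'⟩ := by
          refine ⟨?_, m, Or.inl ?_⟩
          · intro hh
            have hh' : U.1 = U.1 \ {m} := congrArg Subtype.val hh
            have h1 : m ∈ U.1 \ {m} := hh' ▸ hm.1
            exact h1.2 rfl
          · show U.1 = insert m (U.1 \ {m})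
            rw [Set.insert_sdiff_singleton, Set.insert_eq_of_mem hm.1]
        exact hadj.reachable.trans (ih _ hcard U' hU' rfl)
  have : Nonempty (UpX e b₀ t₀ a b) := ⟨⟨_, hmem⟩⟩
  refine ⟨fun U U' => ?_⟩
  exact (key _ U.1 U.2 rfl).trans (key _ U'.1 U'.2 rfl).symm

theorem Bdd.inj (h : Bdd e b₀ t₀) {a b c d : E} (hab : (a, b) ∈ e) (hcd : (c, d) ∈ e)
    (heq : UpX e b₀ t₀ a b = UpX e b₀ t₀ c d) : a = c ∧ b = d := by
  have h1 : ∀ {a b c d : E}, (a, b) ∈ e → (c, d) ∈ e → UpX e b₀ t₀ a b = UpX e b₀ t₀ c d →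
      d = b ∨ (b, d) ∈ e := by
    intro a b c d hab hcd heq
    have := h.up_mem hab (h.ne_bot hab)
    rw [heq] at this
    exact this.1
  have hdn : ∀ {a b : E}, (a, b) ∈ e → ∃ U : UpV e b₀ t₀, U ∈ UpX e b₀ t₀ a b ∧
      ∀ x, x ∉ U.1 → x = a ∨ (x, a) ∈ e := by
    intro a b hab
    refine ⟨⟨{x | ¬ (x = a ∨ (x, a) ∈ e)}, ?_, ?_, ?_⟩, ⟨?_, ?_⟩, ?_⟩
    · rintro x y hx hxy (rfl | hy)
      · exact hx (Or.inr hxy)
      · exact hx (Or.inr (h.tr _ _ _ hxy hy))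
    · rintro (rfl | hy)
      · exact h.not_top hab
      · exact h.not_top hy
    · intro hh
      apply hh
      by_cases ha : b₀ = a
      · exact Or.inl ha
      · exact Or.inr (h.bot a (fun hh => ha hh.symm))
    · rintro (rfl | hy)
      · exact h.irr _ hab
      · exact h.asymm hab hy
    · intro hh
      exact hh (Or.inl rfl)
    · intro x hx
      by_contra hcon
      exact hx hcon
  have h2 : ∀ {a b c d : E}, (a, b) ∈ e → (c, d) ∈ e → UpX e b₀ t₀ a b = UpX e b₀ t₀ c d →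
      c = a ∨ (c, a) ∈ e := by
    intro a b c d hab hcd heq
    obtain ⟨U, hU, hU'⟩ := hdn hab
    rw [heq] at hU
    exact hU' c hU.2
  constructor
  · rcases h2 hab hcd heq with h3 | h3
    · exact h3.symm
    · rcases h2 hcd hab heq.symm with h4 | h4
      · exact h4
      · exact absurd h4 (h.asymm h3)
  · rcases h1 hab hcd heq with h3 | h3
    · exact h3.symm
    · rcases h1 hcd hab heq.symm with h4 | h4
      · exact h4
      · exact absurd h4 (h.asymm h3)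

theorem Bdd.join (_h : Bdd e b₀ t₀) {a b c : E} (hab : (a, b) ∈ e) (hbc : (b, c) ∈ e) :
    UpX e b₀ t₀ a b ∪ UpX e b₀ t₀ b c = UpX e b₀ t₀ a c := by
  ext U
  constructor
  · rintro (⟨h1, h2⟩ | ⟨h1, h2⟩)
    · exact ⟨U.2.1 _ _ h1 hbc, h2⟩
    · exact ⟨h1, fun ha => h2 (U.2.1 _ _ ha hab)⟩
  · rintro ⟨h1, h2⟩
    by_cases hb : b ∈ U.1
    · exact Or.inl ⟨hb, h2⟩
    · exact Or.inr ⟨h1, hb⟩

theorem UpX_disj (a b c : E) : Disjoint (UpX e b₀ t₀ a b) (UpX e b₀ t₀ b c) := by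
  rw [Set.disjoint_left]
  intro U h1 h2
  exact h2.2 h1.1

/-- sets `X a b`, `X c d` with `b < c` are not connected by an edge -/
theorem Bdd.gap (h : Bdd e b₀ t₀) {a b c d : E} (hab : (a, b) ∈ e) (hcd : (c, d) ∈ e)
    (hbc : (b, c) ∈ e)
    (hc : ((UpG e b₀ t₀).induce (UpX e b₀ t₀ a b ∪ UpX e b₀ t₀ c d)).Connected) : False := by
  have m1 := h.up_mem hab (h.ne_bot hab)
  have m2 := h.up_mem hcd (h.ne_bot hcd)
  have hm2 : h.up d (h.ne_bot hcd) ∉ UpX e b₀ t₀ a b := by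
    intro hh
    rcases hh.1 with h1 | h1
    · exact h.irr c (h.tr _ _ _ hcd (h1 ▸ hbc))
    · exact h.asymm (h.tr _ _ _ hbc hcd) h1
  obtain ⟨U, U', -, hU', hadj, hUP, hUP'⟩ := exists_bdry hc (UpX e b₀ t₀ a b) (Or.inl m1) m1
    (Or.inr m2) hm2
  rcases hU' with hU' | hU'
  · exact hUP' hU'
  · have hbU' : b ∉ U'.1 := fun hh => hU'.2 (U'.2.1 _ _ hh hbc)
    have hcU : c ∈ U.1 := U.2.1 _ _ hUP.1 hbc
    obtain ⟨-, m, hm | hm⟩ := hadj
    · have e1 : b = m := by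
        have := hUP.1
        rw [hm] at this
        rcases this with h1 | h1
        · exact h1
        · exact absurd h1 hbU'
      have e2 : c = m := by
        rw [hm] at hcU
        rcases hcU with h1 | h1
        · exact h1
        · exact absurd h1 hU'.2
      exact h.ne hbc (e1.trans e2.symm)
    · apply hbU'
      rw [hm]
      exact Or.inr hUP.1

theorem Bdd.comp (h : Bdd e b₀ t₀) {a b c d : E} (hab : (a, b) ∈ e) (hcd : (c, d) ∈ e)
    (hdis : Disjoint (UpX e b₀ t₀ a b) (UpX e b₀ t₀ c d))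
    (hc : ((UpG e b₀ t₀).induce (UpX e b₀ t₀ a b ∪ UpX e b₀ t₀ c d)).Connected) :
    b = c ∨ d = a := by
  have hb := h.ne_bot hab
  have hd := h.ne_bot hcd
  by_contra hcon
  push Not at hcon
  by_cases h1 : (b, c) ∈ e
  · exact h.gap hab hcd h1 hc
  by_cases h2 : (d, a) ∈ e
  · rw [Set.union_comm] at hc
    exact h.gap hcd hab h2 hc
  -- the union of the two principal up-sets is in the intersection
  let U : UpV e b₀ t₀ := ⟨(h.up b hb).1 ∪ (h.up d hd).1, by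
    refine ⟨?_, Or.inl (h.up b hb).2.2.1, ?_⟩
    · rintro x y (hx | hx) hxy
      · exact Or.inl ((h.up b hb).2.1 x y hx hxy)
      · exact Or.inr ((h.up d hd).2.1 x y hx hxy)
    · rintro (hx | hx)
      · exact (h.up b hb).2.2.2 hx
      · exact (h.up d hd).2.2.2 hx⟩
  have hU : U ∈ UpX e b₀ t₀ a b ∧ U ∈ UpX e b₀ t₀ c d → False := fun hh =>
    Set.disjoint_left.1 hdis hh.1 hh.2
  refine hU ⟨⟨Or.inl (Or.inl rfl), ?_⟩, ⟨Or.inr (Or.inl rfl), ?_⟩⟩
  · rintro (h3 | h3)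
    · exact (h.up_mem hab hb).2 h3
    · rcases h3 with h3 | h3
      · exact hcon.2 h3.symm
      · exact h2 h3
  · rintro (h3 | h3)
    · rcases h3 with h3 | h3
      · exact hcon.1 h3.symm
      · exact h1 h3
    · exact (h.up_mem hcd hd).2 h3

end Pool.Agent.P8H31.RG
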