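import Pool.Agent.P8H31.RG.Up

/-!
# The weight of sets of up-sets
-/

set_option autoImplicit false

namespace Pool.Agent.P8H31.RG

open Finset
open Pool.Agent.R645.RegTree (IsTransitive IsStrictOrdering)

variable {E : Type} {e : Set (E × E)} {b₀ t₀ : E}

section Combin

variable [Fintype E]

open Classical in
/-- the sum of the coefficients over an up-set -/
noncomputable def gs (l : E → ℚ) (U : UpV e b₀ t₀) : ℚ := ∑ c, if c ∈ U.1 then l c else 0

theorem gs_insert (l : E → ℚ) {U U' : UpV e b₀ t₀} {c : E} (hc : c ∉ U.1)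
    (hU : U'.1 = insert c U.1) : gs l U' = gs l U + l c := by
  classical
  unfold gs
  have : l c = ∑ x, if x = c then l x else 0 := by simp
  rw [this, ← Finset.sum_add_distrib]
  refine Finset.sum_congr rfl fun x _ => ?_
  rw [hU]
  by_cases hx : x = c
  · subst hx
    simp [hc]
  · simp [hx]

theorem gs_filter (l : E → ℚ) (U : UpV e b₀ t₀) (T : Finset E)
    (hT : ∀ c, c ∈ T ↔ c ∈ U.1 ∧ l c ≠ 0) : gs l U = ∑ c ∈ T, l c := by
  classical
  have e1 : T = univ.filter fun c => c ∈ U.1 ∧ l c ≠ 0 := by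
    ext c
    simp [hT]
  unfold gs
  rw [e1, Finset.sum_filter]
  refine Finset.sum_congr rfl fun x _ => ?_
  by_cases hx : x ∈ U.1
  · by_cases hl : l x = 0
    · simp [hl]
    · simp [hx, hl]
  · simp [hx]

/-- the elements with nonzero coefficient are pairwise comparable -/
theorem Bdd.chain (h : Bdd e b₀ t₀) (l : E → ℚ) (hv : ∀ U : UpV e b₀ t₀, gs l U = 0 ∨ gs l U = 1)
    {c d : E} (hc0 : c ≠ b₀) (hd0 : d ≠ b₀) (hc : l c ≠ 0) (hd : l d ≠ 0) (hcd : c ≠ d) :
    (c, d) ∈ e ∨ (d, c) ∈ e := by
  by_contra hcon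
  push Not at hcon
  obtain ⟨h1, h2⟩ := hcon
  have hct : c ≠ t₀ := by
    rintro rfl
    exact h2 (h.top d hcd.symm)
  have hdt : d ≠ t₀ := by
    rintro rfl
    exact h1 (h.top c hcd)
  -- the four up-sets
  let S0 : Set E := {x | (c, x) ∈ e ∨ (d, x) ∈ e}
  have hS0 : ∀ x y, x ∈ S0 → (x, y) ∈ e → y ∈ S0 := by
    rintro x y (hx | hx) hxy
    · exact Or.inl (h.tr _ _ _ hx hxy)
    · exact Or.inr (h.tr _ _ _ hx hxy)
  have hcS : c ∉ S0 := by
    rintro (hx | hx)
    · exact h.irr _ hx
    · exact h2 hx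
  have hdS : d ∉ S0 := by
    rintro (hx | hx)
    · exact h1 hx
    · exact h.irr _ hx
  have htS : t₀ ∈ S0 := Or.inl (h.top c hct)
  have hbS : b₀ ∉ S0 := by
    rintro (hx | hx)
    · exact h.not_bot hx
    · exact h.not_bot hx
  let U0 : UpV e b₀ t₀ := ⟨S0, hS0, htS, hbS⟩
  let U1 : UpV e b₀ t₀ := ⟨insert c S0, by
    rintro x y (rfl | hx) hxy
    · exact Or.inr (Or.inl hxy)
    · exact Or.inr (hS0 x y hx hxy), Or.inr htS, by
    rintro (hx | hx)
    · exact hc0 hx.symm
    · exact hbS hx⟩
  let U2 : UpV e b₀ t₀ := ⟨insert d S0, by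
    rintro x y (rfl | hx) hxy
    · exact Or.inr (Or.inr hxy)
    · exact Or.inr (hS0 x y hx hxy), Or.inr htS, by
    rintro (hx | hx)
    · exact hd0 hx.symm
    · exact hbS hx⟩
  let U3 : UpV e b₀ t₀ := ⟨insert c (insert d S0), by
    rintro x y (rfl | hx) hxy
    · exact Or.inr (Or.inr (Or.inl hxy))
    · exact Or.inr (U2.2.1 x y hx hxy), Or.inr (Or.inr htS), by
    rintro (hx | hx)
    · exact hc0 hx.symm
    · exact U2.2.2.2 hx⟩
  have e1 : gs l U1 = gs l U0 + l c := gs_insert l (U := U0) (U' := U1) hcS rfl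
  have e2 : gs l U2 = gs l U0 + l d := gs_insert l (U := U0) (U' := U2) hdS rfl
  have e3 : gs l U3 = gs l U2 + l c := by
    refine gs_insert l (U := U2) (U' := U3) ?_ rfl
    rintro (hx | hx)
    · exact hcd hx
    · exact hcS hx
  rcases hv U0 with g0 | g0 <;> rcases hv U1 with g1 | g1 <;> rcases hv U2 with g2 | g2 <;>
    rcases hv U3 with g3 | g3 <;>
    first
      | exact hc (by linarith)
      | exact hd (by linarith)

theorem Bdd.ker_comb (h : Bdd e b₀ t₀) {S : Set (UpV e b₀ t₀)}
    (hS : ((UpG e b₀ t₀).induce S).Connected) (l : E → ℚ)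
    (h1 : ∀ U : UpV e b₀ t₀, U ∈ S → gs l U = 1) (h0 : ∀ U : UpV e b₀ t₀, U ∉ S → gs l U = 0) :
    ∃ a b, (a, b) ∈ e ∧ S = UpX e b₀ t₀ a b := by
  classical
  have hv : ∀ U : UpV e b₀ t₀, gs l U = 0 ∨ gs l U = 1 := by
    intro U
    by_cases hU : U ∈ S
    · exact Or.inr (h1 U hU)
    · exact Or.inl (h0 U hU)
  have hmemS : ∀ U : UpV e b₀ t₀, gs l U ≠ 0 → U ∈ S := fun U hU => by
    by_contra hcon
    exact hU (h0 U hcon)
  have hb0 : ∀ (U : UpV e b₀ t₀) {c : E}, c ∈ U.1 → c ≠ b₀ := by
    rintro U c hc rfl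
    exact U.2.2.2 hc
  -- the support
  set Sp : Set E := {c | c ≠ b₀ ∧ l c ≠ 0} with hSp
  obtain ⟨⟨Us, hUs⟩⟩ := hS.nonempty
  have hne : Sp.Nonempty := by
    by_contra hcon
    rw [Set.not_nonempty_iff_eq_empty] at hcon
    have : gs l Us = ∑ c ∈ (∅ : Finset E), l c := by
      refine gs_filter l Us ∅ fun c => ⟨fun hc => absurd hc (Finset.notMem_empty _), fun hc => ?_⟩
      have : c ∈ Sp := ⟨hb0 Us hc.1, hc.2⟩
      rw [hcon] at this
      exact absurd this (Set.notMem_empty c)
    rw [h1 Us hUs] at this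
    simp at this
  obtain ⟨b, hb, hbmax⟩ := h.exists_max Sp hne
  have hlt : ∀ c ∈ Sp, c ≠ b → (c, b) ∈ e := by
    intro c hc hcb
    rcases h.chain l hv hc.1 hb.1 hc.2 hb.2 hcb with h2 | h2
    · exact h2
    · exact absurd h2 (hbmax c hc)
  have hlb : l b = 1 := by
    have : gs l (h.up b hb.1) = ∑ c ∈ ({b} : Finset E), l c := by
      refine gs_filter l _ _ fun c => ⟨fun hc => ?_, fun hc => ?_⟩
      · rw [Finset.mem_singleton] at hc
        subst hc
        exact ⟨Or.inl rfl, hb.2⟩
      · rw [Finset.mem_singleton]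
        rcases hc.1 with h2 | h2
        · exact h2
        · exact absurd h2 (hbmax c ⟨hb0 _ hc.1, hc.2⟩)
    rw [Finset.sum_singleton] at this
    rcases hv (h.up b hb.1) with h2 | h2
    · exact absurd (this.symm.trans h2) hb.2
    · exact this.symm.trans h2
  -- sets in `S` contain `b`
  have hbS : ∀ U ∈ S, b ∈ U.1 := by
    intro U hU
    by_contra hcon
    have : gs l U = ∑ c ∈ (∅ : Finset E), l c := by
      refine gs_filter l U ∅ fun c => ⟨fun hc => absurd hc (Finset.notMem_empty _), fun hc => ?_⟩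
      exfalso
      by_cases hcb : c = b
      · exact hcon (hcb ▸ hc.1)
      · exact hcon (U.2.1 _ _ hc.1 (hlt c ⟨hb0 U hc.1, hc.2⟩ hcb))
    rw [h1 U hU] at this
    simp at this
  by_cases hA : (Sp \ {b}).Nonempty
  · obtain ⟨a, ha, hamax⟩ := h.exists_max _ hA
    have hab : (a, b) ∈ e := hlt a ha.1 ha.2
    have hlta : ∀ c ∈ Sp, c ≠ b → c ≠ a → (c, a) ∈ e := by
      intro c hc hcb hca
      rcases h.chain l hv hc.1 ha.1.1 hc.2 ha.1.2 hca with h2 | h2
      · exact h2
      · exact absurd h2 (hamax c ⟨hc, hcb⟩)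
    have hla : l a = -1 := by
      have : gs l (h.up a ha.1.1) = ∑ c ∈ ({a, b} : Finset E), l c := by
        refine gs_filter l _ _ fun c => ⟨fun hc => ?_, fun hc => ?_⟩
        · rw [Finset.mem_insert, Finset.mem_singleton] at hc
          rcases hc with rfl | rfl
          · exact ⟨Or.inl rfl, ha.1.2⟩
          · exact ⟨Or.inr hab, hb.2⟩
        · rw [Finset.mem_insert, Finset.mem_singleton]
          by_cases hcb : c = b
          · exact Or.inr hcb
          · left
            rcases hc.1 with h2 | h2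
            · exact h2
            · exact absurd h2 (hamax c ⟨⟨hb0 _ hc.1, hc.2⟩, hcb⟩)
      rw [Finset.sum_pair (h.ne hab), hlb] at this
      rcases hv (h.up a ha.1.1) with h2 | h2
      · linarith
      · exact absurd (show l a = 0 by linarith) ha.1.2
    refine ⟨a, b, hab, Set.Subset.antisymm ?_ ?_⟩
    · intro U hU
      refine ⟨hbS U hU, fun haU => ?_⟩
      -- an edge of `S` leaving the sets without `a`
      have m1 : h.up b hb.1 ∈ S := hmemS _ (by
        have : gs l (h.up b hb.1) = ∑ c ∈ ({b} : Finset E), l c := by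
          refine gs_filter l _ _ fun c => ⟨fun hc => ?_, fun hc => ?_⟩
          · rw [Finset.mem_singleton] at hc
            subst hc
            exact ⟨Or.inl rfl, hb.2⟩
          · rw [Finset.mem_singleton]
            rcases hc.1 with h2 | h2
            · exact h2
            · exact absurd h2 (hbmax c ⟨hb0 _ hc.1, hc.2⟩)
        rw [this, Finset.sum_singleton]
        exact hb.2)
      have m2 : a ∉ (h.up b hb.1).1 := (h.up_mem hab hb.1).2
      obtain ⟨U1, U2, hU1, hU2, hadj, hP1, hP2⟩ := exists_bdry hS {U | a ∉ U.1} m1 m2 hU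
        (by simpa using haU)
      have ha1 : a ∉ U1.1 := hP1
      have ha2 : a ∈ U2.1 := by
        by_contra hcon
        exact hP2 hcon
      have hb2 := hbS U2 hU2
      have hex : ∃ c, c ∈ U2.1 ∧ c ∈ Sp ∧ c ≠ a ∧ c ≠ b := by
        by_contra hcon
        push Not at hcon
        have : gs l U2 = ∑ c ∈ ({a, b} : Finset E), l c := by
          refine gs_filter l _ _ fun c => ⟨fun hc => ?_, fun hc => ?_⟩
          · rw [Finset.mem_insert, Finset.mem_singleton] at hc
            rcases hc with rfl | rfl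
            · exact ⟨ha2, ha.1.2⟩
            · exact ⟨hb2, hb.2⟩
          · rw [Finset.mem_insert, Finset.mem_singleton]
            by_cases hca : c = a
            · exact Or.inl hca
            · exact Or.inr (hcon c hc.1 ⟨hb0 _ hc.1, hc.2⟩ hca)
        rw [Finset.sum_pair (h.ne hab), h1 U2 hU2] at this
        linarith
      obtain ⟨c, hc2, hcS, hca, hcb⟩ := hex
      have hce := hlta c hcS hcb hca
      have hc1 : c ∉ U1.1 := fun hh => ha1 (U1.2.1 _ _ hh hce)
      obtain ⟨-, m, hm | hm⟩ := hadj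
      · apply ha1
        rw [hm]
        exact Or.inr ha2
      · have e1 : a = m := by
          rw [hm] at ha2
          rcases ha2 with h2 | h2
          · exact h2
          · exact absurd h2 ha1
        have e2 : c = m := by
          rw [hm] at hc2
          rcases hc2 with h2 | h2
          · exact h2
          · exact absurd h2 hc1
        exact hca (e2.trans e1.symm)
    · rintro U ⟨hbU, haU⟩
      refine hmemS U ?_
      have : gs l U = ∑ c ∈ ({b} : Finset E), l c := by
        refine gs_filter l _ _ fun c => ⟨fun hc => ?_, fun hc => ?_⟩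
        · rw [Finset.mem_singleton] at hc
          subst hc
          exact ⟨hbU, hb.2⟩
        · rw [Finset.mem_singleton]
          by_contra hcb
          by_cases hca : c = a
          · exact haU (hca ▸ hc.1)
          · exact haU (U.2.1 _ _ hc.1 (hlta c ⟨hb0 U hc.1, hc.2⟩ hcb hca))
      rw [this, Finset.sum_singleton]
      exact hb.2
  · -- only one element in the support
    have hone : ∀ c ∈ Sp, c = b := by
      intro c hc
      by_contra hcb
      exact hA ⟨c, hc, hcb⟩
    refine ⟨b₀, b, h.bot b hb.1, Set.Subset.antisymm ?_ ?_⟩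
    · intro U hU
      exact ⟨hbS U hU, U.2.2.2⟩
    · rintro U ⟨hbU, -⟩
      refine hmemS U ?_
      have : gs l U = ∑ c ∈ ({b} : Finset E), l c := by
        refine gs_filter l _ _ fun c => ⟨fun hc => ?_, fun hc => ?_⟩
        · rw [Finset.mem_singleton] at hc
          subst hc
          exact ⟨hbU, hb.2⟩
        · rw [Finset.mem_singleton]
          exact hone c ⟨hb0 U hc.1, hc.2⟩
      rw [this, Finset.sum_singleton]
      exact hb.2

end Combin

/-! ### The weight -/

section Weight

/-- the indicator function of a set -/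
noncomputable def ind {V : Type} (S : Set V) : V → ℚ := Set.indicator S fun _ => 1

theorem ind_union {V : Type} {S T : Set V} (h : Disjoint S T) : ind (S ∪ T) = ind S + ind T := by
  unfold ind
  rw [Set.indicator_union_of_disjoint h]
  rfl

instance [Finite E] : Finite (UpV e b₀ t₀) := by
  unfold UpV
  infer_instance

/-- **The system of sets for a finite bounded strict ordering.** -/
theorem Bdd.exists_sys [Finite E] (h : Bdd e b₀ t₀) :
    ∃ φ : Set (UpV e b₀ t₀) → ℝ, Sys (UpG e b₀ t₀) e (UpX e b₀ t₀) φ := by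
  classical
  have := Fintype.ofFinite E
  let V := UpV e b₀ t₀
  let Fs : E → Set V := fun c => {U | c ∈ U.1}
  let W : Submodule ℚ (V → ℚ) := Submodule.span ℚ (Set.range fun c => ind (Fs c))
  obtain ⟨f, hf⟩ : ∃ f : ((V → ℚ) ⧸ W) →ₗ[ℚ] ℝ, Function.Injective f := by
    apply Module.Free.exists_linearMap_injective_of_rank_lt
    rw [Real.rank_rat_real]
    exact (Module.rank_lt_aleph0 ℚ _).trans Cardinal.aleph0_lt_continuum
  refine ⟨fun S => f (W.mkQ (ind S)), ?_⟩
  constructor
  · exact h.tr
  · exact fun a b hab => h.conn hab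
  · exact fun a b c d hab hcd heq => h.inj hab hcd heq
  · exact fun a b c hab hbc => h.join hab hbc
  · exact fun a b c _ _ => UpX_disj a b c
  · exact fun a b c d hab hcd hdis hc => h.comp hab hcd hdis hc
  · intro S T hST
    show f (W.mkQ (ind (S ∪ T))) = f (W.mkQ (ind S)) + f (W.mkQ (ind T))
    rw [ind_union hST, map_add, map_add]
  · intro a b hab
    show f (W.mkQ (ind (UpX e b₀ t₀ a b))) = 0
    have hdis : Disjoint (UpX e b₀ t₀ a b) (Fs a) := by
      rw [Set.disjoint_left]
      intro U h1 h2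
      exact h1.2 h2
    have hun : UpX e b₀ t₀ a b ∪ Fs a = Fs b := by
      ext U
      constructor
      · rintro (h1 | h1)
        · exact h1.1
        · exact U.2.1 _ _ h1 hab
      · intro h1
        by_cases ha : a ∈ U.1
        · exact Or.inr ha
        · exact Or.inl ⟨h1, ha⟩
    have h2 := ind_union hdis
    rw [hun] at h2
    have h3 : ind (UpX e b₀ t₀ a b) = ind (Fs b) - ind (Fs a) := by rw [h2]; abel
    have h4 : W.mkQ (ind (UpX e b₀ t₀ a b)) = 0 := by
      rw [Submodule.mkQ_apply, Submodule.Quotient.mk_eq_zero, h3]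
      exact W.sub_mem (Submodule.subset_span ⟨b, rfl⟩) (Submodule.subset_span ⟨a, rfl⟩)
    rw [h4, map_zero]
  · intro S hS h0
    have h4 : W.mkQ (ind S) = 0 := hf (by rw [map_zero]; exact h0)
    rw [Submodule.mkQ_apply, Submodule.Quotient.mk_eq_zero] at h4
    obtain ⟨l, hl⟩ := (Submodule.mem_span_range_iff_exists_fun ℚ).1 h4
    have hg : ∀ U : V, gs l U = ind S U := by
      intro U
      rw [← hl, Finset.sum_apply]
      unfold gs
      refine Finset.sum_congr rfl fun c _ => ?_
      simp only [Pi.smul_apply, smul_eq_mul, ind, Set.indicator_apply, Fs, Set.mem_ofPred_eq]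
      by_cases hc : c ∈ U.1
      · simp [hc]
      · simp [hc]
    refine h.ker_comb hS l (fun U hU => ?_) fun U hU => ?_
    · rw [hg, ind, Set.indicator_of_mem hU]
    · rw [hg, ind, Set.indicator_of_notMem hU]

end Weight

end Pool.Agent.P8H31.RG
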